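import Mathlib
import Pool.Agent.TH189.Kr16

/-!
# Singularity of sums of commuting polynomial matrices of small degree

Say that a square matrix `Y` of polynomials in `x_1, …, x_n` has *small degree* (with parameters
`m`, `w`) if it is annihilated by a monic polynomial `T ^ d + a_1 T ^ (d - 1) + ⋯ + a_d` with
`d ≤ m` and `a_j ∈ ℂ[x]` of degree at most `w j`.  For instance the matrices `1 ⊗ M ⊗ 1` with an
`m × m` matrix `M` of polynomials of degree at most `w` have small degree, by the theorem of Cayley
and Hamilton, and so have the matrices `∑ x_k γ_k` of Clifford algebras, for `m = 2` and `w = 1`.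

We give explicit integer points, of number polynomial in `n` and `N` for fixed `m` and `w` and
quasi-polynomial if `m` and `w` are at most polylogarithmic in `N`, such that every `N × N` matrix
`M` of polynomials in `n` variables, which can be brought by left and right multiplication with
(unknown) polynomial matrices of nonzero determinant to a sum of arbitrarily many pairwise commuting
matrices of small degree, is nonsingular if and only if it is nonsingular at one of these points.
Examples: the Kronecker sums `∑_i 1 ⊗ ⋯ ⊗ M_i ⊗ ⋯ ⊗ 1` of arbitrarily many small matrices (for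
instance weighted Laplace matrices of Cartesian products of arbitrarily many small graphs, with
shifts), and, because products of commuting matrices of small degree have small degree, polynomials
of bounded degree in arbitrarily many commuting matrices of small degree.

The proof.  Let `Ω` be an algebraic closure of `ℂ(x_1, …, x_n)`.  Commuting matrices over `Ω` have
common eigenvectors, so all eigenvalues of the sum are sums of roots of polynomials as above, and
the determinant is a product of such sums.  Let `F` be the finite set of these polynomials.  At a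
point `x⁰` of the generator with `w m ^ 2` seeds the roots `θ_i` of the members of `F` stay
distinct, and they become power series in `t` along the lines `x⁰ + t v`; the Galois group `Γ`
permutes these series.  Substitute for `v` the generator with `s = 2 w m ^ 4` seeds, which does not
kill polynomials of degree at most `s`, and let `Γ'` be the Galois group of the new series.
Invariants of small degree show that `Γ` and `Γ'` have the same orbits of pairs of roots.  Let `R`
and `R'` be the spaces of the vectors `c` with `∑ c_i θ_i = 0` before and after the substitution;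
the averaged projection onto the `Γ'`-stable space `R'` is a matrix which is constant on the orbits
of pairs, so `R'` is `Γ`-stable.  Suppose that `R' ≠ R`.  Then a `Γ`-stable complement of `R` in
`R'` contains a vector `v ≠ 0` which is fixed by the stabiliser of a root.  The element
`∑ v_i θ_i` has at most `m` conjugates, their product is a polynomial of degree at most `w m`
which vanishes after the substitution, so it is zero and `v` is in `R`, a contradiction.
-/

set_option autoImplicit false

namespace Pool.Agent.Results.MP_08e617_lc.CommutingSums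

open MvPolynomial

/-- `Y` is annihilated by a monic polynomial of degree `d ≤ m` whose coefficient at `T ^ j` is a
polynomial in `x` of degree at most `w (d - j)`. -/
def SmallDegree {N n : ℕ} (m w : ℕ) (Y : Matrix (Fin N) (Fin N) (MvPolynomial (Fin n) ℂ)) : Prop :=
  ∃ χ : Polynomial (MvPolynomial (Fin n) ℂ), χ.Monic ∧ χ.natDegree ≤ m ∧
    (∀ j, (χ.coeff j).totalDegree ≤ w * (χ.natDegree - j)) ∧ Polynomial.aeval Y χ = 0

/-- There are matrices `G`, `H` of polynomials with nonzero determinants such that `G M H` is a sum
of finitely many pairwise commuting matrices of small degree. -/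
def IsCommutingSum {N n : ℕ} (m w : ℕ)
    (M : Matrix (Fin N) (Fin N) (MvPolynomial (Fin n) ℂ)) : Prop :=
  ∃ (G H : Matrix (Fin N) (Fin N) (MvPolynomial (Fin n) ℂ)) (r : ℕ)
    (Y : Fin r → Matrix (Fin N) (Fin N) (MvPolynomial (Fin n) ℂ)),
    G.det ≠ 0 ∧ H.det ≠ 0 ∧ (∀ i j, Y i * Y j = Y j * Y i) ∧ (∀ i, SmallDegree m w (Y i)) ∧
      G * M * H = ∑ i, Y i

/-- The number of seeds: `w (m ^ 2 + 2 m ^ 4)`. -/
def seeds (m w : ℕ) : ℕ := w * (m ^ 2 + 2 * m ^ 4)

/-- The integer point with coordinates `∑ l, y_l ∏_{k ≠ i} (z_l - k)`, `i = 0, …, n - 1`. -/
def point (n t : ℕ) (y z : Fin t → ℕ) : Fin n → ℤ :=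
  fun i => ∑ l : Fin t, (y l : ℤ) * ∏ k ∈ Finset.univ.erase i, ((z l : ℤ) - (k.val : ℤ))

/-- The points with `t` seeds `(y_l, z_l)`, where `0 ≤ y_l ≤ D` and `0 ≤ z_l ≤ n D`. -/
def points (n t D : ℕ) : Finset (Fin n → ℤ) :=
  ((Fintype.piFinset fun _ : Fin t => Finset.range (D + 1)) ×ˢ
    (Fintype.piFinset fun _ : Fin t => Finset.range (n * D + 1))).image
    fun yz => point n t yz.1 yz.2

theorem points_eq (n t D : ℕ) : points n t D = H530R2.hitSet n t D := rfl

/-- **Singularity of sums of commuting polynomial matrices of small degree.**  Fix `N, n, m, w`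
with `m ≥ 1`.  The explicit set `points n (seeds m w) (N w)` has at most
`((N w + 1) (n N w + 1)) ^ seeds m w` elements.  Let `M` be any `N × N` matrix of polynomials in
`n` variables such that `G M H` is, for some matrices `G`, `H` of polynomials with nonzero
determinants, a sum of pairwise commuting matrices of small degree.  Then `det M` is a nonzero
polynomial if and only if the matrix `M` is nonsingular at one of the explicit points. -/
theorem result (N n m w : ℕ) (hm : 1 ≤ m) :
    (points n (seeds m w) (N * w)).card ≤ ((N * w + 1) * (n * (N * w) + 1)) ^ (seeds m w) ∧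
    (∀ p ∈ points n (seeds m w) (N * w), ∀ i,
      |p i| ≤ (seeds m w * (N * w) * (n * (N * w) + n) ^ (n - 1) : ℕ)) ∧
    ∀ M : Matrix (Fin N) (Fin N) (MvPolynomial (Fin n) ℂ), IsCommutingSum m w M →
      (M.det ≠ 0 ↔ ∃ p ∈ points n (seeds m w) (N * w),
        (M.map (eval fun i => (p i : ℂ))).det ≠ 0) := by
  refine ⟨?_, ?_, ?_⟩
  · rw [points_eq]
    exact H530R2.hitSet_card _ _ _
  · intro p hp i
    rw [points_eq] at hp
    exact H530R2.hitSet_bound _ _ _ p hp i
  rintro M ⟨G, H, r, Y, hG, hH, hc, hY, hM⟩
  have hev : ∀ c : Fin n → ℂ, eval c M.det = (M.map (eval c)).det := fun c =>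
    RingHom.map_det _ _
  constructor
  · intro hne
    have hS : TH189.Kr.SEig m w (∑ i, Y i) :=
      TH189.Kr.seig_sum m w Finset.univ Y (fun i _ j _ => hc i j) fun i _ => hY i
    have hdet : (∑ i, Y i).det = G.det * M.det * H.det := by
      rw [← hM, Matrix.det_mul, Matrix.det_mul]
    have h0 : (∑ i, Y i).det ≠ 0 := by
      rw [hdet]
      exact mul_ne_zero (mul_ne_zero hG hne) hH
    have hdvd : M.det ∣ (∑ i, Y i).det := by
      rw [hdet]
      exact Dvd.dvd.mul_right (dvd_mul_left _ _) _
    have hdeg : M.det.totalDegree ≤ N * w := by
      have h1 := TH189.Kr.det_deg m w _ hS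
      rw [Fintype.card_fin] at h1
      refine le_trans ?_ h1
      obtain ⟨e, he⟩ := hdvd
      have he0 : e ≠ 0 := by
        rintro rfl
        exact h0 (by rw [he, mul_zero])
      rw [he, totalDegree_mul_of_isDomain hne he0]
      exact Nat.le_add_right _ _
    have h2 := TH189.Kr.trailing_notMem (fun i : Fin n => ((i.val : ℕ) : ℂ))
      (H530R2.nodes_injective n) m w hm _ hS M.det
      (hdvd.trans (TH189.Kr.det_dvd _ h0))
    obtain ⟨p, hp, hp0⟩ := H530R2.exists_hit n (seeds m w) (N * w) _ hdeg h2
    rw [hev] at hp0
    exact ⟨p, hp, hp0⟩
  · rintro ⟨p, -, hp⟩ h0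
    apply hp
    rw [← hev, h0, map_zero]

end Pool.Agent.Results.MP_08e617_lc.CommutingSums
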