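import Mathlib
import Pool.Agent.TH483.Many
import Pool.Agent.TH483.TreeBr
import Pool.Agent.TH483.Rank

/-!
# Singularity and rank of polynomial matrices of small treewidth

MP_08e617_lc asks for a deterministic test whether the determinant of a polynomial matrix is the
zero polynomial. We treat the polynomial matrices of small treewidth, where the rows, the columns
and the variables are the vertices and each nonzero entry joins its row, its column and its
variables, up to unknown constant invertible row and column operations, and the divisors of products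
of determinants of such matrices. A variable may occur in arbitrarily many entries with arbitrarily
high degree. An explicit set of quasi-polynomial size, which does not depend on the matrix, decides
whether such a matrix is singular, and contains a point at which the matrix attains its rank.

The treewidth gives a linear layout of the entries such that each cut is crossed by few rows,
columns and variables (`TH483.Br.layout`, `TH483.br_of_tree`). A determinant can be expanded along
such a cut (`TH483.det_split`, `TH483.minor_ordRk`). The explicit set of points is that of Agrawal,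
Gurjar, Korwar and Saxena for read-once oblivious programs in an unknown order (basis isolating
weights); a self-contained proof is in `TH483.exists_hit`.
-/

set_option autoImplicit false

namespace Pool.Agent.Results.MP_08e617_lc.FewSharedVariables

open MvPolynomial Pool.Agent.TH483

variable {K : Type*} [Field K]

/-- A tree decomposition of the matrix `M` with bags of size at most `w`. The nodes `0, …, m - 1`
form a rooted tree in which the parent `par i` of a node `i > 0` has a smaller number. The bag `B i`
of each node is a set of at most `w` rows, columns and variables. For every nonzero entry some bag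
contains its row, its column and its variables. The nodes whose bags contain a given row, column
or variable form a subtree: each such node, except the one with the smallest number, has its parent
among them. -/
structure TreeDec {n a b : ℕ} (M : Matrix (Fin a) (Fin b) (MvPolynomial (Fin n) K)) (w m : ℕ)
    (B : ℕ → Finset (Fin a ⊕ (Fin b ⊕ Fin n))) (par : ℕ → ℕ) : Prop where
  pos : 0 < m
  parent_lt : ∀ i, 0 < i → par i < i
  card_le : ∀ i < m, (B i).card ≤ w
  entry : ∀ i j, M i j ≠ 0 → ∃ t < m, Sum.inl i ∈ B t ∧ Sum.inr (Sum.inl j) ∈ B t ∧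
    ∀ x ∈ (M i j).vars, Sum.inr (Sum.inr x) ∈ B t
  subtree : ∀ z, ∀ i < m, z ∈ B i → (∃ j < i, z ∈ B j) → z ∈ B (par i)

/-- the matrix `P M Q` with constant `P`, `Q` -/
noncomputable def pmq {n a b : ℕ} (P : Matrix (Fin a) (Fin a) K)
    (M : Matrix (Fin a) (Fin b) (MvPolynomial (Fin n) K)) (Q : Matrix (Fin b) (Fin b) K) :
    Matrix (Fin a) (Fin b) (MvPolynomial (Fin n) K) :=
  P.map (C : K →+* MvPolynomial (Fin n) K) * M * Q.map (C : K →+* MvPolynomial (Fin n) K)

/-- The matrices considered: `M` has at most `s` entries, of degree at most `δ`, and `P M Q` has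
a tree decomposition with bags of size at most `w` for some invertible constant matrices `P` and
`Q`. -/
def Good {n a b : ℕ} (w s δ : ℕ) (M : Matrix (Fin a) (Fin b) (MvPolynomial (Fin n) K)) : Prop :=
  a * b ≤ s ∧ (∀ i j, (M i j).totalDegree ≤ δ) ∧
    ∃ (P : Matrix (Fin a) (Fin a) K) (Q : Matrix (Fin b) (Fin b) K), P.det ≠ 0 ∧ Q.det ≠ 0 ∧
      ∃ m B par, TreeDec (pmq P M Q) w m B par

/-- the matrix `M` at the point `p` -/
noncomputable def at' {n a b : ℕ} (M : Matrix (Fin a) (Fin b) (MvPolynomial (Fin n) K))
    (p : Fin n → ℤ) : Matrix (Fin a) (Fin b) K := M.map (MvPolynomial.eval fun i => (p i : K))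

/-- the rank of `M` as a matrix over the field of rational functions -/
noncomputable def genRank {n a b : ℕ} (M : Matrix (Fin a) (Fin b) (MvPolynomial (Fin n) K)) : ℕ :=
  (M.map (algebraMap (MvPolynomial (Fin n) K) (FractionRing (MvPolynomial (Fin n) K)))).rank

/-- the number of the rows, columns and variables which cross a cut of the entries -/
def crossing (w s : ℕ) : ℕ := w * (Nat.log 2 s + 1)

/-- the bound for the rank across a cut -/
def width (w s δ : ℕ) : ℕ :=
  2 ^ (2 * crossing w s) * (s * δ + 1) ^ (2 * crossing w s + 2 * w)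

/-- the explicit set of points -/
noncomputable def tests (n w s δ d : ℕ) : Finset (Fin n → ℤ) :=
  hit n (s * δ) (width w s δ) d (Nat.clog 2 n) d

theorem totalDegree_pmq {n a b δ : ℕ} (M : Matrix (Fin a) (Fin b) (MvPolynomial (Fin n) K))
    (h : ∀ i j, (M i j).totalDegree ≤ δ) (P : Matrix (Fin a) (Fin a) K)
    (Q : Matrix (Fin b) (Fin b) K) (i : Fin a) (j : Fin b) :
    (pmq P M Q i j).totalDegree ≤ δ := by
  unfold pmq
  rw [Matrix.mul_apply]
  refine totalDegree_finsetSum_le fun k _ => ?_
  refine (totalDegree_mul _ _).trans ?_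
  rw [Matrix.map_apply, totalDegree_C, add_zero, Matrix.mul_apply]
  refine totalDegree_finsetSum_le fun l _ => ?_
  refine (totalDegree_mul _ _).trans ?_
  rw [Matrix.map_apply, totalDegree_C, zero_add]
  exact h _ _

theorem det_pmq {n N : ℕ} (P Q : Matrix (Fin N) (Fin N) K)
    (M : Matrix (Fin N) (Fin N) (MvPolynomial (Fin n) K)) :
    (pmq P M Q).det = C P.det * M.det * C Q.det := by
  unfold pmq
  rw [Matrix.det_mul, Matrix.det_mul, (C : K →+* MvPolynomial (Fin n) K).map_det P,
    (C : K →+* MvPolynomial (Fin n) K).map_det Q]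
  rfl

/-- the rank of `P M Q`, after a ring homomorphism to a field -/
theorem rank_pmq {n a b : ℕ} {F : Type*} [Field F] (φ : MvPolynomial (Fin n) K →+* F)
    {P : Matrix (Fin a) (Fin a) K} {Q : Matrix (Fin b) (Fin b) K}
    (M : Matrix (Fin a) (Fin b) (MvPolynomial (Fin n) K)) (hP : P.det ≠ 0) (hQ : Q.det ≠ 0) :
    ((pmq P M Q).map φ).rank = (M.map φ).rank := by
  unfold pmq
  rw [Matrix.map_mul, Matrix.map_mul]
  have h1 : ∀ {k : ℕ} (R : Matrix (Fin k) (Fin k) K), R.det ≠ 0 →
      ((R.map (C : K →+* MvPolynomial (Fin n) K)).map φ).det ≠ 0 := by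
    intro k R hR
    have e : ((R.map (C : K →+* MvPolynomial (Fin n) K)).map φ).det =
        (φ.comp (C : K →+* MvPolynomial (Fin n) K)) R.det := by
      rw [RingHom.map_det]
      rfl
    rw [e]
    exact (map_ne_zero _).2 hR
  rw [Matrix.rank_mul_eq_left_of_isUnit_det _ _ (isUnit_iff_ne_zero.2 (h1 Q hQ)),
    Matrix.rank_mul_eq_right_of_isUnit_det _ _ (isUnit_iff_ne_zero.2 (h1 P hP))]

/-- a minor of `M` at a point -/
theorem minor_at {n a b r : ℕ} (M : Matrix (Fin a) (Fin b) (MvPolynomial (Fin n) K))
    {F : Type*} [Field F] (φ : MvPolynomial (Fin n) K →+* F) (e : Fin r → Fin a)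
    (f : Fin r → Fin b) : ((M.map φ).submatrix e f).det = φ (M.submatrix e f).det := by
  rw [RingHom.map_det]
  rfl

theorem rank_at_le {n a b : ℕ} (M : Matrix (Fin a) (Fin b) (MvPolynomial (Fin n) K))
    (p : Fin n → ℤ) : (at' M p).rank ≤ genRank M := by
  obtain ⟨e, f, hef⟩ := TH483.exists_minor (at' M p)
  unfold genRank
  refine le_rank_of_minor _ e f ?_
  rw [minor_at]
  have hef' : (MvPolynomial.eval fun i => (p i : K)) (M.submatrix e f).det ≠ 0 := by
    rw [← minor_at]
    exact hef
  intro h0
  apply hef'
  have : (M.submatrix e f).det = 0 := by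
    rwa [map_eq_zero_iff _ (IsFractionRing.injective (MvPolynomial (Fin n) K)
      (FractionRing (MvPolynomial (Fin n) K)))] at h0
  rw [this, map_zero]

theorem one_le_width (w s δ : ℕ) : 1 ≤ width w s δ := by
  unfold width
  exact Nat.one_le_iff_ne_zero.2 (by positivity)

/-- the minors of a matrix with a tree decomposition -/
theorem minor_rk {n a b w s δ m r : ℕ} {M : Matrix (Fin a) (Fin b) (MvPolynomial (Fin n) K)}
    {B : ℕ → Finset (Fin a ⊕ (Fin b ⊕ Fin n))} {par : ℕ → ℕ} (hM : TreeDec M w m B par)
    (hs : a * b ≤ s) (hδ : ∀ i j, (M i j).totalDegree ≤ δ) {e : Fin r → Fin a}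
    {f : Fin r → Fin b} (he : Function.Injective e) (hf : Function.Injective f) :
    OrdRk (width w s δ) (M.submatrix e f).det ∧ (M.submatrix e f).det.totalDegree ≤ s * δ := by
  classical
  have hinc : ∀ x : Fin a × Fin b, ∃ t < m, inc M Prod.mk x ⊆ B t := by
    rintro ⟨i, j⟩
    by_cases h0 : M i j = 0
    · refine ⟨0, hM.pos, fun z hz => ?_⟩
      rw [mem_inc] at hz
      obtain ⟨i', j', h1, h2, -⟩ := hz
      rw [Prod.mk.injEq] at h2
      rw [h2.1, h2.2] at h1
      exact absurd h0 h1
    · obtain ⟨t, ht, h1, h2, h3⟩ := hM.entry i j h0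
      refine ⟨t, ht, fun z hz => ?_⟩
      rw [mem_inc] at hz
      obtain ⟨i', j', -, h5, h6⟩ := hz
      rw [Prod.mk.injEq] at h5
      obtain ⟨rfl, rfl⟩ := h5
      rcases z with z | z | z
      · have : z = i' := h6
        rw [this]; exact h1
      · have : z = j' := h6
        rw [this]; exact h2
      · exact h3 z h6
  have hbr := br_of_tree (inc := inc M Prod.mk) hM.parent_lt hM.card_le hM.subtree hinc
  obtain ⟨L, -, hL, hbd⟩ := hbr.layout
  have hvar : ∀ x : Fin a × Fin b, (vinc M Prod.mk x).card ≤ w := by
    intro x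
    obtain ⟨t, ht, hsub⟩ := hinc x
    refine le_trans ?_ (hM.card_le t ht)
    rw [← Finset.card_image_of_injective (f := fun y : Fin n =>
      (Sum.inr (Sum.inr y) : Fin a ⊕ (Fin b ⊕ Fin n))) _
      (fun u v huv => Sum.inr_injective (Sum.inr_injective huv))]
    refine Finset.card_le_card fun z hz => ?_
    rw [Finset.mem_image] at hz
    obtain ⟨y, hy, rfl⟩ := hz
    exact hsub (vinc_iff.1 hy)
  have hcard : Fintype.card (Fin a × Fin b) ≤ s := by simpa using hs
  have h1 := minor_ordRk (M := M) (f := Prod.mk) (L := L) (q := crossing w s) (w := w) (δ := δ)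
    (fun i j _ => (hL _).2 (Finset.mem_univ _)) (fun t => by
      refine le_trans (le_of_eq (by congr!)) ((hbd t).trans ?_)
      rw [Finset.card_univ]
      unfold crossing
      exact Nat.mul_le_mul_left _ (Nat.add_le_add_right (Nat.log_mono_right hcard) 1))
    hvar hδ he hf
  have hr : r ≤ s := by
    rcases Nat.eq_zero_or_pos r with rfl | hr
    · exact Nat.zero_le _
    · have ha : r ≤ a := by simpa using Fintype.card_le_of_injective e he
      have hb : r ≤ b := by simpa using Fintype.card_le_of_injective f hf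
      calc r = r * 1 := (mul_one r).symm
        _ ≤ a * b := Nat.mul_le_mul ha (by omega)
        _ ≤ s := hs
  constructor
  · refine ordRk_mono h1 ?_
    unfold width
    exact Nat.mul_le_mul_left _ (Nat.pow_le_pow_left
      (Nat.add_le_add_right (Nat.mul_le_mul_right _ hr) 1) _)
  · have := (det_mem (A := Set.univ) (M.submatrix e f)
      (fun i j => by rw [mem_supported]; exact Set.subset_univ _) (fun i j => hδ _ _)).2
    rw [Fintype.card_fin] at this
    exact this.trans (Nat.mul_le_mul_right _ hr)

theorem base_le (n w s δ d : ℕ) :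
    2 * (d + 1) * (s * δ + d * (n ^ 2 * width w s δ ^ 4) + 1) ≤
      ((n + 1) * (d + 1)) ^ 2 * (2 * (s * δ + 1)) ^ (16 * w * (Nat.log 2 s + 1) + 1) := by
  set W := width w s δ with hW
  set q := crossing w s with hq
  set N := s * δ + 1 with hN
  have hW1 : 1 ≤ W := one_le_width w s δ
  have hW41 : 1 ≤ W ^ 4 := Nat.one_le_pow _ _ hW1
  have hq' : q = w * (Nat.log 2 s + 1) := rfl
  have hwq : w ≤ q := by
    rw [hq']
    exact Nat.le_mul_of_pos_right _ (by omega)
  have h1 : s * δ + d * (n ^ 2 * W ^ 4) + 1 ≤ (n + 1) ^ 2 * (d + 1) * (N * W ^ 4) := by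
    have e1 : (n + 1) ^ 2 * (d + 1) * (N * W ^ 4) = N * W ^ 4 + d * (n ^ 2 * W ^ 4) +
        (d * (n ^ 2 * (s * δ) * W ^ 4) + (d * (2 * n + 1) + (n ^ 2 + 2 * n)) * (N * W ^ 4)) := by
      rw [hN]; ring
    have e2 : N * 1 ≤ N * W ^ 4 := Nat.mul_le_mul_left _ hW41
    rw [e1]
    omega
  have hWle : W ≤ (2 * N) ^ (4 * q) := by
    rw [hW]
    unfold width
    rw [← hq, ← hN]
    calc 2 ^ (2 * q) * N ^ (2 * q + 2 * w) ≤ 2 ^ (4 * q) * N ^ (4 * q) :=
          Nat.mul_le_mul (Nat.pow_le_pow_right (by norm_num) (by omega))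
            (Nat.pow_le_pow_right (by omega) (by omega))
      _ = (2 * N) ^ (4 * q) := by rw [mul_pow]
  calc 2 * (d + 1) * (s * δ + d * (n ^ 2 * W ^ 4) + 1)
      ≤ 2 * (d + 1) * ((n + 1) ^ 2 * (d + 1) * (N * W ^ 4)) := Nat.mul_le_mul_left _ h1
    _ = ((n + 1) * (d + 1)) ^ 2 * ((2 * N) * W ^ 4) := by ring
    _ ≤ ((n + 1) * (d + 1)) ^ 2 * ((2 * N) * ((2 * N) ^ (4 * q)) ^ 4) := by gcongr
    _ = ((n + 1) * (d + 1)) ^ 2 * (2 * N) ^ (16 * w * (Nat.log 2 s + 1) + 1) := by
        rw [← pow_mul, hq', ← pow_succ']
        congr 2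
        ring

/-- **Quasi-polynomial black-box test for polynomial matrices of small treewidth.**
Let `Y = ((n + 1) (d + 1))² (2 s δ + 2) ^ (16 w (⌊log₂ s⌋ + 1) + 1)` and `h = ⌈log₂ n⌉`. The explicit
set `tests n w s δ d ⊆ ℤ^n` of at most `Y ^ (2h + 1)` points has the following properties.

* It hits every polynomial of total degree at most `d` which divides a product of nonzero
  determinants of `Good w s δ` matrices. (For instance, the determinants of the nonsingular
  matrices whose diagonal blocks in a block triangular form, in which the variables can be shared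
  in any way by the blocks, are such matrices.)
* The rank over the rational functions of every `Good w s δ` matrix `M` is the maximum of the ranks
  of `M` at the points of the set if the minors of `M` have degree at most `d`; so such a square
  matrix is singular if and only if it is singular at all points of the set. -/
theorem result [CharZero K] (n w s δ d : ℕ) :
    (tests n w s δ d).card ≤ (((n + 1) * (d + 1)) ^ 2 *
      (2 * (s * δ + 1)) ^ (16 * w * (Nat.log 2 s + 1) + 1)) ^ (2 * Nat.clog 2 n + 1) ∧
    (∀ p ∈ tests n w s δ d, ∀ i, |p i| ≤ (((((n + 1) * (d + 1)) ^ 2 *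
      (2 * (s * δ + 1)) ^ (16 * w * (Nat.log 2 s + 1) + 1)) ^ ((((n + 1) * (d + 1)) ^ 2 *
      (2 * (s * δ + 1)) ^ (16 * w * (Nat.log 2 s + 1) + 1)) * Nat.clog 2 n + 1) : ℕ) : ℤ)) ∧
    (∀ (f : MvPolynomial (Fin n) K) (J : ℕ) (N : Fin J → ℕ)
      (A : ∀ j, Matrix (Fin (N j)) (Fin (N j)) (MvPolynomial (Fin n) K)),
      (∀ j, Good w s δ (A j)) → (∀ j, (A j).det ≠ 0) → f ∣ ∏ j, (A j).det →
      f.totalDegree ≤ d → ∃ p ∈ tests n w s δ d, MvPolynomial.eval (fun i => (p i : K)) f ≠ 0) ∧
    ∀ (a b : ℕ) (M : Matrix (Fin a) (Fin b) (MvPolynomial (Fin n) K)), Good w s δ M →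
      min a b * δ ≤ d → (∀ p, (at' M p).rank ≤ genRank M) ∧
        ∃ p ∈ tests n w s δ d, (at' M p).rank = genRank M := by
  classical
  have hbase := base_le n w s δ d
  refine ⟨(hit_card _ _ _ _ _ _).trans (Nat.pow_le_pow_left hbase _), ?_, ?_, ?_⟩
  · intro p hp i
    have hppos := pr_pos n (s * δ) (width w s δ) d
    have hple := pr_le n (s * δ) (width w s δ) d
    unfold tests hit at hp
    set T := d * pr n (s * δ) (width w s δ) d with hT
    set Y := ((n + 1) * (d + 1)) ^ 2 * (2 * (s * δ + 1)) ^ (16 * w * (Nat.log 2 s + 1) + 1) with hY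
    have hY1 : 1 ≤ Y := Nat.one_le_iff_ne_zero.2 (by positivity)
    have h1 : T ≤ Y := by
      refine le_trans ?_ hbase
      rw [hT]
      calc d * pr n (s * δ) (width w s δ) d
          ≤ (d + 1) * (2 * (s * δ + d * (n ^ 2 * width w s δ ^ 4) + 1)) :=
            Nat.mul_le_mul (Nat.le_succ _) hple
        _ = _ := by ring
    have h2 : pr n (s * δ) (width w s δ) d ≤ Y := by
      refine le_trans ?_ hbase
      refine hple.trans ?_
      exact Nat.mul_le_mul_right _ (by omega)
    rcases Nat.eq_zero_or_pos T with hT0 | hT0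
    · -- all coordinates are zero
      unfold points at hp
      rw [Finset.mem_image] at hp
      obtain ⟨x, -, rfl⟩ := hp
      unfold point
      have : ((x.2 0 : ℕ) : ℤ) = 0 := by
        have := (x.2 0).2
        have h3 : (x.2 0 : ℕ) = 0 := by omega
        rw [h3]
        rfl
      rw [this, zero_mul, abs_zero]
      positivity
    · refine (points_bound _ hppos _ hT0 p hp _).trans ?_
      apply Int.ofNat_le.2
      calc T ^ (pr n (s * δ) (width w s δ) d * Nat.clog 2 n + 1)
          ≤ Y ^ (pr n (s * δ) (width w s δ) d * Nat.clog 2 n + 1) := Nat.pow_le_pow_left h1 _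
        _ ≤ Y ^ (Y * Nat.clog 2 n + 1) :=
          Nat.pow_le_pow_right hY1 (Nat.add_le_add_right (Nat.mul_le_mul_right _ h2) 1)
  · intro f J N A hA hA0 hdvd hd
    -- the determinants up to constants
    have hA' : ∀ j, ∃ c : K, c ≠ 0 ∧ OrdRk (width w s δ) (C c * (A j).det) ∧
        (C c * (A j).det).totalDegree ≤ s * δ := by
      intro j
      obtain ⟨hs, hδ, P, Q, hP, hQ, m, B, par, hdec⟩ := hA j
      refine ⟨P.det * Q.det, mul_ne_zero hP hQ, ?_⟩
      have h1 := minor_rk (s := s) (δ := δ) hdec hs (totalDegree_pmq _ hδ P Q)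
        (e := id) (f := id) Function.injective_id Function.injective_id
      rw [Matrix.submatrix_id_id, det_pmq] at h1
      have h2 : C (P.det * Q.det) * (A j).det = C P.det * (A j).det * C Q.det := by
        rw [map_mul]; ring
      rw [h2]
      exact h1
    choose c hc0 hrk hdeg using hA'
    refine exists_hit' (f := fun j => C (c j) * (A j).det)
      (fun j => mul_ne_zero (fun h => hc0 j (C_eq_zero.1 h)) (hA0 j)) hdeg (one_le_width w s δ)
      (Nat.le_pow_clog (by norm_num) _) hrk ?_ hd
    refine hdvd.trans ?_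
    rw [Finset.prod_mul_distrib]
    exact Dvd.intro_left _ rfl
  · intro a b M hM hd
    refine ⟨rank_at_le M, ?_⟩
    obtain ⟨hs, hδ, P, Q, hP, hQ, m, B, par, hdec⟩ := hM
    obtain ⟨e, f, hef⟩ := TH483.exists_minor ((pmq P M Q).map
      (algebraMap (MvPolynomial (Fin n) K) (FractionRing (MvPolynomial (Fin n) K))))
    have hr : ((pmq P M Q).map (algebraMap (MvPolynomial (Fin n) K)
        (FractionRing (MvPolynomial (Fin n) K)))).rank = genRank M := rank_pmq _ M hP hQ
    rw [minor_at] at hef
    have hdet : ((pmq P M Q).submatrix e f).det ≠ 0 := fun h => hef (by rw [h, map_zero])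
    obtain ⟨he, hf⟩ := inj_of_det _ e f hdet
    have hrle : ((pmq P M Q).map (algebraMap (MvPolynomial (Fin n) K)
        (FractionRing (MvPolynomial (Fin n) K)))).rank ≤ min a b := by
      refine le_min ?_ ?_
      · simpa using Fintype.card_le_of_injective e he
      · simpa using Fintype.card_le_of_injective f hf
    have hdeg' : ((pmq P M Q).submatrix e f).det.totalDegree ≤ d := by
      have := (det_mem (A := Set.univ) ((pmq P M Q).submatrix e f)
        (fun i j => by rw [mem_supported]; exact Set.subset_univ _)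
        (fun i j => totalDegree_pmq M hδ P Q _ _)).2
      rw [Fintype.card_fin] at this
      exact this.trans ((Nat.mul_le_mul_right _ hrle).trans hd)
    have h1 := minor_rk (s := s) (δ := δ) hdec hs (totalDegree_pmq _ hδ P Q) he hf
    obtain ⟨p, hp, hpe⟩ := exists_hit' (J := 1) (f := fun _ => ((pmq P M Q).submatrix e f).det)
      (D := s * δ) (W := width w s δ) (h := Nat.clog 2 n) (d := d) (fun _ => hdet)
      (fun _ => h1.2) (one_le_width w s δ) (Nat.le_pow_clog (by norm_num) _) (fun _ => h1.1)
      (g := ((pmq P M Q).submatrix e f).det) (by simp) hdeg'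
    refine ⟨p, hp, le_antisymm (rank_at_le M p) ?_⟩
    rw [← hr]
    have h2 : (at' M p).rank = ((pmq P M Q).map (MvPolynomial.eval fun i => (p i : K))).rank :=
      (rank_pmq (MvPolynomial.eval fun i => (p i : K)) M hP hQ).symm
    rw [h2]
    refine le_rank_of_minor _ e f ?_
    rw [minor_at]
    exact hpe

end Pool.Agent.Results.MP_08e617_lc.FewSharedVariables
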