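import Pool.Agent.TH652.PN.Ex

/-!
# Symbolic determinants of block triangular families with polynormal or bounded degree blocks, in
unknown bases

A family of matrices `M_1, …, M_m` is *tame of degree `d`* if in some order the first matrices are
one-sided polynormal (`M_i M_j ∈ 𝒜 M_i` modulo the ideal generated by the earlier ones, `𝒜` the
algebra generated by the family) and modulo the ideal generated by them the generic matrix
`M(x) = ∑ x_k M_k` has degree at most `d` over the centre of `𝒜`.  Examples: commuting and
quasi-commuting (`M_i M_j = q_{ij} M_j M_i`) families, bases of nilpotent Lie algebras of matrices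
(any characteristic), Clifford systems, generalised Clifford systems.

If in unknown bases (over an algebraically closed field) the matrices `A_k` are block triangular,
with any number of blocks of any sizes, each of which is tame of degree `D + 1`, then
`det (∑ x_k A_k) ≠ 0` if and only if this determinant is not zero at one of the at most
`(n (m - 1) + 1)^(D + 1) (n + 1)^D` explicit integer points of `points n m D`; for `D = 0` these are
the `n (m - 1) + 1` points `(∏_{k ≠ j} (z - k))_j`, `z = 0, …, n (m - 1)`.
-/

set_option autoImplicit false

namespace Pool.Agent.Results.MP_08e617_lc.PolynormalBlocks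

open Pool.Agent.TH652.PN

variable {K : Type} [Field K] {m : ℕ}

/-- The determinant of `A(x)` is not the zero polynomial if and only if it is not zero at one of the
points of `S`. -/
def HitBy {n : ℕ} (A : Fin m → Matrix (Fin n) (Fin n) K) (S : Finset (Fin m → ℤ)) : Prop :=
  (symb A).det ≠ 0 ↔ ∃ c ∈ S, (∑ k, (c k : K) • A k).det ≠ 0

variable {ι : Type} [Fintype ι] [DecidableEq ι]

/-- `M_i M_j = q_{ij} M_j M_i` -/
def QuasiCommuting (M : Fin m → Matrix ι ι K) : Prop := ∀ i j, ∃ q : K, M i * M j = q • (M j * M i)

/-- `[M_i, M_j]` is a linear combination of the `M_k` with `k < i`. -/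
def LieNilpotent (M : Fin m → Matrix ι ι K) : Prop :=
  ∀ i j, M i * M j - M j * M i ∈ Submodule.span K (M '' {k | k < i})

/-- The symmetrised products of `d` of the matrices commute with all of the matrices. -/
def Clifford (d : ℕ) (M : Fin m → Matrix ι ι K) : Prop :=
  ∀ (w : Fin d → Fin m) (k : Fin m),
    Commute (∑ π : Equiv.Perm (Fin d), (List.ofFn fun l => M (w (π l))).prod) (M k)

/-- The families allowed as diagonal blocks: tame of degree `d`; in particular quasi-commuting,
Lie nilpotent and generalised Clifford families. -/
def BlockType (d : ℕ) (M : Fin m → Matrix ι ι K) : Prop :=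
  Tame d M ∨ QuasiCommuting M ∨ LieNilpotent M ∨ Clifford d M

/-- In unknown bases over `L` the matrices `A_k` are block triangular (`b i` is the number of the
block of the index `i`), and the families of the diagonal blocks are as above. -/
def HiddenBlocks (L : Type) [Field L] [Algebra K L] {n : ℕ} (d : ℕ)
    (A : Fin m → Matrix (Fin n) (Fin n) K) : Prop :=
  ∃ (P Q : Matrix (Fin n) (Fin n) L) (b : Fin n → ℕ), P.det ≠ 0 ∧ Q.det ≠ 0 ∧
    (∀ k, (P * (A k).map (algebraMap K L) * Q).BlockTriangular b) ∧
    ∀ q, BlockType d fun k => (P * (A k).map (algebraMap K L) * Q).toSquareBlock b q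

theorem result :
    ∀ (K : Type) [Field K] [CharZero K] (L : Type) [Field L] [IsAlgClosed L] [Algebra K L]
      (n m D : ℕ) (A : Fin m → Matrix (Fin n) (Fin n) K), HiddenBlocks L (D + 1) A →
      HitBy A (points n m D) ∧
      (points n m D).card ≤ (n * (m - 1) + 1) ^ (D + 1) * (n + 1) ^ D := by
  intro K _ _ L _ _ _ n m D A h
  have : CharZero L := charZero_of_injective_algebraMap (algebraMap K L).injective
  refine ⟨hitting (L := L) (D := D) ?_, card_points n m D⟩
  obtain ⟨P, Q, b, hP, hQ, hb, ht⟩ := h
  refine ⟨P, Q, b, hP, hQ, hb, fun q => ?_⟩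
  have hD : 1 ≤ D + 1 := Nat.le_add_left 1 D
  rcases ht q with h | h | h | h
  · exact h
  · exact (polynormal_of_quasi h).tame hD
  · exact (polynormal_of_lie h).tame hD
  · exact tame_of_clifford hD h

end Pool.Agent.Results.MP_08e617_lc.PolynormalBlocks
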