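import Mathlib
import Pool.Agent.TH189.Lev8

/-!
# Symbolic determinants over matrix Lie algebras with small simple factors

Let `𝔤` be an (unknown) Lie algebra of complex `N × N` matrices.  We consider spaces of
`bN × bN` matrices which, after multiplication from the left and from the right by (unknown)
invertible matrices, consist of block matrices all of whose `b²` blocks of size `N × N` lie in `𝔤`;
for `b = 1` these are the spaces of matrices which are equivalent to a subspace of `𝔤`.

Let `rad 𝔤` be the largest solvable ideal.  Suppose that every simple ideal of `𝔤 / rad 𝔤` has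
dimension at most `m` (there is no restriction on the number of simple ideals), and put
`s = m ⌊log₂ N⌋ + 1`; or put `s = dim (𝔤 / rad 𝔤) + 1`.  Then the symbolic determinant
`det (∑ x_k A_k)` is nonzero if and only if `det (∑ p_k A_k) ≠ 0` for one of the explicit integer
points `p` generated by `b² s` seeds.  The points depend only on `n`, `b`, `N`, `s`.

The proof: on an irreducible `𝔤`-module `W` the radical acts by scalars, the trace free part of the
action factors through `𝔤 / rad 𝔤`, and the ideals `I_1, …, I_k` which act nontrivially satisfy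
`2 ^ k ≤ dim W`, because for `sl₂`-triples `(e_i, h_i, f_i)` in `I_i` the `4 ^ k` products of one
element of each `{1, e_i, f_i, h_i}` are linearly independent in `End W`.  So the blocks of a
composition series of `𝔤`-modules span spaces of dimension at most `s`, and the determinants of
these blocks are polynomials in at most `b² s` linear forms.
-/

set_option autoImplicit false

namespace Pool.Agent.Results.MP_08e617_lc.SmallLeviFactor

open MvPolynomial

attribute [local instance 100] LieRing.ofAssociativeRing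

/-- The symbolic matrix `∑ x_k A_k`. -/
noncomputable def symbolic {ι : Type} {n : ℕ} (A : Fin n → Matrix ι ι ℂ) :
    Matrix ι ι (MvPolynomial (Fin n) ℂ) :=
  ∑ k, (X k : MvPolynomial (Fin n) ℂ) • (A k).map C

/-- The matrix `∑ c_k A_k`. -/
noncomputable def value {ι : Type} {n : ℕ} (A : Fin n → Matrix ι ι ℂ) (c : Fin n → ℂ) :
    Matrix ι ι ℂ :=
  ∑ k, c k • A k

/-- Every minimal nonzero ideal of `𝔤 / rad 𝔤` has dimension at most `m`.  (The Lie algebra
`𝔤 / rad 𝔤` is semisimple; its minimal nonzero ideals are its simple ideals.) -/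
def SimpleIdealsLE {N : ℕ} (𝔤 : LieSubalgebra ℂ (Matrix (Fin N) (Fin N) ℂ)) (m : ℕ) : Prop :=
  ∀ I : LieIdeal ℂ (𝔤 ⧸ LieAlgebra.radical ℂ 𝔤), IsAtom I → Module.finrank ℂ I ≤ m

/-- `s ≥ m ⌊log₂ N⌋ + 1` for a bound `m` of the dimensions of the simple ideals of `𝔤 / rad 𝔤`, or
`s ≥ dim (𝔤 / rad 𝔤) + 1`. -/
def Small {N : ℕ} (𝔤 : LieSubalgebra ℂ (Matrix (Fin N) (Fin N) ℂ)) (s : ℕ) : Prop :=
  (∃ m : ℕ, SimpleIdealsLE 𝔤 m ∧ m * Nat.log 2 N + 1 ≤ s) ∨
    Module.finrank ℂ (𝔤 ⧸ LieAlgebra.radical ℂ 𝔤) + 1 ≤ s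

/-- All `N × N` blocks of the block matrix `M` lie in `𝔤`. -/
def BlocksIn {N b : ℕ} (𝔤 : LieSubalgebra ℂ (Matrix (Fin N) (Fin N) ℂ))
    (M : Matrix (Fin b × Fin N) (Fin b × Fin N) ℂ) : Prop :=
  ∀ a c : Fin b, (Matrix.of fun i j => M (a, i) (c, j)) ∈ 𝔤

/-- The integer point with coordinates `∑ l, y_l ∏_{k ≠ i} (z_l - k)`, `i = 0, …, n - 1`. -/
def point (n t : ℕ) (y z : Fin t → ℕ) : Fin n → ℤ :=
  fun i => ∑ l : Fin t, (y l : ℤ) * ∏ k ∈ Finset.univ.erase i, ((z l : ℤ) - (k.val : ℤ))

/-- The points with `t` seeds `(y_l, z_l)`, where `0 ≤ y_l ≤ D` and `0 ≤ z_l ≤ n D`. -/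
def points (n t D : ℕ) : Finset (Fin n → ℤ) :=
  ((Fintype.piFinset fun _ : Fin t => Finset.range (D + 1)) ×ˢ
    (Fintype.piFinset fun _ : Fin t => Finset.range (n * D + 1))).image
    fun yz => point n t yz.1 yz.2

theorem points_eq (n t D : ℕ) : points n t D = H530R2.hitSet n t D := rfl

theorem symbolic_apply {ι : Type} {n : ℕ} (A : Fin n → Matrix ι ι ℂ) (i j : ι) :
    symbolic A i j = TH189.Lev.lform ℂ n fun k => A k i j := by
  rw [TH189.Lev.lform_apply, symbolic, Matrix.sum_apply]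
  refine Finset.sum_congr rfl fun k _ => ?_
  rw [Matrix.smul_apply, Matrix.map_apply, smul_eq_mul, mul_comm]

theorem symbolic_deg {ι : Type} {n : ℕ} (A : Fin n → Matrix ι ι ℂ) (i j : ι) :
    (symbolic A i j).totalDegree ≤ 1 := by
  rw [symbolic_apply, TH189.Lev.lform_apply]
  refine (totalDegree_finsetSum _ _).trans (Finset.sup_le fun k _ => ?_)
  refine (totalDegree_mul _ _).trans ?_
  rw [totalDegree_C, totalDegree_X]

theorem symbolic_map {ι : Type} {n : ℕ} (A : Fin n → Matrix ι ι ℂ) (c : Fin n → ℂ) :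
    (symbolic A).map (eval c) = value A c := by
  ext i j
  rw [Matrix.map_apply, symbolic_apply, TH189.Lev.lform_apply, value, Matrix.sum_apply, map_sum]
  refine Finset.sum_congr rfl fun k _ => ?_
  rw [map_mul, eval_C, eval_X, Matrix.smul_apply, smul_eq_mul, mul_comm]

theorem symbolic_mul {ι : Type} [Fintype ι] {n : ℕ} (A : Fin n → Matrix ι ι ℂ)
    (P Q : Matrix ι ι ℂ) :
    symbolic (fun k => P * A k * Q) = P.map C * symbolic A * Q.map C := by
  unfold symbolic
  rw [Finset.mul_sum, Finset.sum_mul]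
  refine Finset.sum_congr rfl fun k _ => ?_
  rw [Matrix.map_mul, Matrix.map_mul, Matrix.mul_smul, Matrix.smul_mul]

/-- **Symbolic determinants over matrix Lie algebras with small simple factors.**
Fix `N, b, n, s`.  The explicit set `points n (b² s) (bN)` has at most
`((bN + 1) (nbN + 1)) ^ (b² s)` elements.  Let `𝔤` be any Lie algebra of complex `N × N` matrices
such that `s ≥ m ⌊log₂ N⌋ + 1`, where `m` bounds the dimensions of the simple ideals of
`𝔤 / rad 𝔤`, or `s ≥ dim (𝔤 / rad 𝔤) + 1`.  Let `A_k` be `n` complex `bN × bN` matrices and let `P`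
and `Q` be invertible matrices such that all blocks of all `P A_k Q` are in `𝔤`.
Then `det (∑ x_k A_k)` is a nonzero polynomial if and only if `det (∑ p_k A_k) ≠ 0` for one of the
explicit points `p`. -/
theorem result (N b n s : ℕ) :
    (points n (b * b * s) (b * N)).card ≤
      ((b * N + 1) * (n * (b * N) + 1)) ^ (b * b * s) ∧
    (∀ p ∈ points n (b * b * s) (b * N), ∀ i,
      |p i| ≤ ((b * b * s) * (b * N) * (n * (b * N) + n) ^ (n - 1) : ℕ)) ∧
    ∀ 𝔤 : LieSubalgebra ℂ (Matrix (Fin N) (Fin N) ℂ), Small 𝔤 s →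
      ∀ (A : Fin n → Matrix (Fin b × Fin N) (Fin b × Fin N) ℂ)
        (P Q : Matrix (Fin b × Fin N) (Fin b × Fin N) ℂ), P.det ≠ 0 → Q.det ≠ 0 →
        (∀ k, BlocksIn 𝔤 (P * A k * Q)) →
        ((symbolic A).det ≠ 0 ↔
          ∃ p ∈ points n (b * b * s) (b * N), (value A fun i => (p i : ℂ)).det ≠ 0) := by
  refine ⟨?_, ?_, ?_⟩
  · rw [points_eq]
    exact H530R2.hitSet_card _ _ _
  · intro p hp i
    rw [points_eq] at hp
    exact H530R2.hitSet_bound _ _ _ p hp i
  intro 𝔤 hsm A P Q hP hQ hA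
  obtain ⟨m, hm, hs⟩ : ∃ m : ℕ, SimpleIdealsLE 𝔤 m ∧
      min (m * Nat.log 2 N) (Module.finrank ℂ (𝔤 ⧸ LieAlgebra.radical ℂ 𝔤)) + 1 ≤ s := by
    rcases hsm with ⟨m, hm, hs⟩ | hs
    · exact ⟨m, hm, le_trans (Nat.succ_le_succ (min_le_left _ _)) hs⟩
    · exact ⟨Module.finrank ℂ (𝔤 ⧸ LieAlgebra.radical ℂ 𝔤), fun I _ =>
        Submodule.finrank_le I.toSubmodule, le_trans (Nat.succ_le_succ (min_le_right _ _)) hs⟩
  have hcard : Fintype.card (Fin b × Fin N) = b * N := by simp
  have hbs : s * (b * b) = b * b * s := by ring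
  let G : Fin n → Fin b → Fin b → Matrix (Fin N) (Fin N) ℂ :=
    fun k a c => Matrix.of fun i j => (P * A k * Q) (a, i) (c, j)
  have hsym : TH189.Lev.symb G = symbolic fun k => P * A k * Q := by
    ext1 ⟨a, i⟩ ⟨c, j⟩
    rw [symbolic_apply]
    rfl
  have hmain := TH189.Lev.main 𝔤 m s hm hs (fun i : Fin n => ((i.val : ℕ) : ℂ))
    (H530R2.nodes_injective n) G fun k a c => hA k a c
  rw [hsym, hbs] at hmain
  have hmapP : (P.map (C : ℂ →+* MvPolynomial (Fin n) ℂ)).det = C P.det :=
    (RingHom.map_det _ _).symm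
  have hmapQ : (Q.map (C : ℂ →+* MvPolynomial (Fin n) ℂ)).det = C Q.det :=
    (RingHom.map_det _ _).symm
  have hval : ∀ c : Fin n → ℂ, value (fun k => P * A k * Q) c = P * value A c * Q := by
    intro c
    unfold value
    rw [Finset.mul_sum, Finset.sum_mul]
    refine Finset.sum_congr rfl fun k _ => ?_
    rw [Matrix.mul_smul, Matrix.smul_mul]
  constructor
  · intro hne
    obtain ⟨p, hp, h1, -⟩ := TH189.Lev.hit _ (symbolic_deg _) _ hmain
    rw [hcard] at hp
    refine ⟨p, hp, fun h0 => ?_⟩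
    refine h1 ?_ ?_
    · rw [symbolic_mul, Matrix.det_mul, Matrix.det_mul]
      refine mul_ne_zero (mul_ne_zero ?_ hne) ?_
      · rw [hmapP]; simpa using hP
      · rw [hmapQ]; simpa using hQ
    · rw [symbolic_map, hval, Matrix.det_mul, Matrix.det_mul, h0, mul_zero, zero_mul]
  · rintro ⟨p, -, hp⟩ h0
    apply hp
    rw [← symbolic_map]
    have h1 := RingHom.map_det (eval fun i => (p i : ℂ)) (symbolic A)
    rw [h0, map_zero] at h1
    exact h1.symm

end Pool.Agent.Results.MP_08e617_lc.SmallLeviFactor
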